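import Pool.Agent.Lib_helper54.FAM.PC5

set_option autoImplicit false

/-!
# Tables of products, grouped by the two units
-/

namespace Pool.Agent.K4N.LT

open Pool.Agent.K4N.LA Pool.Agent.K4N.PC

/-! ### the tables form a commutative monoid -/

lemma padd_nil (v : List ℤ) : padd v [] = v := by cases v <;> rfl

lemma padd2_nil (v : List (List ℤ)) : padd2 v [] = v := by cases v <;> rfl

lemma padd3_nil (v : List (List (List ℤ))) : padd3 v [] = v := by cases v <;> rfl

lemma padd_comm : ∀ v w : List ℤ, padd v w = padd w v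
  | [], w => (padd_nil w).symm
  | _ :: _, [] => rfl
  | a :: v, b :: w => by
    show (a + b) :: padd v w = (b + a) :: padd w v
    rw [padd_comm v w, add_comm]

lemma padd_assoc : ∀ u v w : List ℤ, padd (padd u v) w = padd u (padd v w)
  | [], _, _ => rfl
  | _ :: _, [], _ => rfl
  | _ :: _, _ :: _, [] => rfl
  | a :: u, b :: v, c :: w => by
    show (a + b + c) :: padd (padd u v) w = (a + (b + c)) :: padd u (padd v w)
    rw [padd_assoc u v w, add_assoc]

lemma padd2_comm : ∀ v w : List (List ℤ), padd2 v w = padd2 w v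
  | [], w => (padd2_nil w).symm
  | _ :: _, [] => rfl
  | a :: v, b :: w => by
    show padd a b :: padd2 v w = padd b a :: padd2 w v
    rw [padd2_comm v w, padd_comm]

lemma padd2_assoc : ∀ u v w : List (List ℤ), padd2 (padd2 u v) w = padd2 u (padd2 v w)
  | [], _, _ => rfl
  | _ :: _, [], _ => rfl
  | _ :: _, _ :: _, [] => rfl
  | a :: u, b :: v, c :: w => by
    show padd (padd a b) c :: padd2 (padd2 u v) w = padd a (padd b c) :: padd2 u (padd2 v w)
    rw [padd2_assoc u v w, padd_assoc]

lemma padd3_comm : ∀ v w : List (List (List ℤ)), padd3 v w = padd3 w v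
  | [], w => (padd3_nil w).symm
  | _ :: _, [] => rfl
  | a :: v, b :: w => by
    show padd2 a b :: padd3 v w = padd2 b a :: padd3 w v
    rw [padd3_comm v w, padd2_comm]

lemma padd3_assoc : ∀ u v w : List (List (List ℤ)), padd3 (padd3 u v) w = padd3 u (padd3 v w)
  | [], _, _ => rfl
  | _ :: _, [], _ => rfl
  | _ :: _, _ :: _, [] => rfl
  | a :: u, b :: v, c :: w => by
    show padd2 (padd2 a b) c :: padd3 (padd3 u v) w =
      padd2 a (padd2 b c) :: padd3 u (padd3 v w)
    rw [padd3_assoc u v w, padd2_assoc]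

/-! ### multiples and products -/

lemma scl_padd (n : ℤ) : ∀ v w : List ℤ, scl n (padd v w) = padd (scl n v) (scl n w)
  | [], _ => rfl
  | _ :: _, [] => rfl
  | a :: v, b :: w => by
    show n * (a + b) :: scl n (padd v w) = (n * a + n * b) :: padd (scl n v) (scl n w)
    rw [scl_padd n v w, mul_add]

lemma scl2_padd (n : ℤ) : ∀ v w : List (List ℤ), scl2 n (padd2 v w) = padd2 (scl2 n v) (scl2 n w)
  | [], _ => rfl
  | _ :: _, [] => rfl
  | a :: v, b :: w => by
    show scl n (padd a b) :: scl2 n (padd2 v w) =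
      padd (scl n a) (scl n b) :: padd2 (scl2 n v) (scl2 n w)
    rw [scl2_padd n v w, scl_padd]

lemma scl3_padd (n : ℤ) : ∀ v w : List (List (List ℤ)),
    scl3 n (padd3 v w) = padd3 (scl3 n v) (scl3 n w)
  | [], _ => rfl
  | _ :: _, [] => rfl
  | a :: v, b :: w => by
    show scl2 n (padd2 a b) :: scl3 n (padd3 v w) =
      padd2 (scl2 n a) (scl2 n b) :: padd3 (scl3 n v) (scl3 n w)
    rw [scl3_padd n v w, scl2_padd]

lemma scl_comm (n m : ℤ) (v : List ℤ) : scl n (scl m v) = scl m (scl n v) := by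
  unfold scl
  rw [List.map_map, List.map_map]
  refine List.map_congr_left fun x _ => ?_
  show n * (m * x) = m * (n * x)
  ring

lemma scl2_comm (n m : ℤ) (v : List (List ℤ)) : scl2 n (scl2 m v) = scl2 m (scl2 n v) := by
  unfold scl2
  rw [List.map_map, List.map_map]
  exact List.map_congr_left fun x _ => scl_comm n m x

lemma o2_padd (u v w : List ℤ) : o2 u (padd v w) = padd2 (o2 u v) (o2 u w) := by
  induction u with
  | nil => rfl
  | cons n u ih =>
    show scl n (padd v w) :: o2 u (padd v w) =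
      padd (scl n v) (scl n w) :: padd2 (o2 u v) (o2 u w)
    rw [ih, scl_padd]

lemma o3_padd (u : List ℤ) (v w : List (List ℤ)) :
    o3 u (padd2 v w) = padd3 (o3 u v) (o3 u w) := by
  induction u with
  | nil => rfl
  | cons n u ih =>
    show scl2 n (padd2 v w) :: o3 u (padd2 v w) =
      padd2 (scl2 n v) (scl2 n w) :: padd3 (o3 u v) (o3 u w)
    rw [ih, scl2_padd]

lemma scl_o2 (c : ℤ) (u v : List ℤ) : scl2 c (o2 u v) = o2 u (scl c v) := by
  unfold scl2 o2
  rw [List.map_map]
  exact List.map_congr_left fun x _ => scl_comm c x v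

lemma scl_o3 (c : ℤ) (u : List ℤ) (v : List (List ℤ)) : scl3 c (o3 u v) = o3 u (scl2 c v) := by
  unfold scl3 o3
  rw [List.map_map]
  exact List.map_congr_left fun x _ => scl2_comm c x v

/-! ### the groups -/

/-- a group of products with the same two units: the numbers of the units, the coefficients and
the numbers of the monotone units -/
abbrev Gp : Type := ℕ × ℕ × List (ℕ × ℕ)

/-- the products of a group -/
def Gp.fl (g : Gp) : List Pd := g.2.2.map fun e => (e.1, g.1, g.2.1, e.2)

/-- the products of the groups -/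
def flat : List Gp → List Pd
  | [] => []
  | g :: G => Gp.fl g ++ flat G

/-- the combination of the monotone units -/
def gw (Ws : List (List ℤ)) : List (ℕ × ℕ) → List ℤ
  | [] => []
  | e :: l => padd (scl (e.1 : ℤ) (Ws.getD e.2 [])) (gw Ws l)

/-- the symmetric product -/
def o3s (u v w : List ℤ) : List (List (List ℤ)) := padd3 (o3 u (o2 v w)) (o3 v (o2 u w))

/-- the table of a group -/
def gTab (Us Ws : List (List ℤ)) : List Gp → List (List (List ℤ))
  | [] => []
  | g :: G => padd3 (o3s (Us.getD g.1 []) (Us.getD g.2.1 []) (gw Ws g.2.2)) (gTab Us Ws G)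

lemma o3s_padd (u v w z : List ℤ) : o3s u v (padd w z) = padd3 (o3s u v w) (o3s u v z) := by
  unfold o3s
  rw [o2_padd, o2_padd, o3_padd, o3_padd, padd3_assoc, padd3_assoc]
  congr 1
  rw [← padd3_assoc, ← padd3_assoc, padd3_comm (o3 u (o2 v z))]

lemma scl_o3s (c : ℤ) (u v w : List ℤ) : scl3 c (o3s u v w) = o3s u v (scl c w) := by
  unfold o3s
  rw [scl3_padd, scl_o3, scl_o3, scl_o2, scl_o2]

lemma prTab_cons (Us Ws : List (List ℤ)) (c i j k : ℕ) (P : List Pd) :
    prTab Us Ws ((c, i, j, k) :: P) =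
      padd3 (o3s (Us.getD i []) (Us.getD j []) (scl (c : ℤ) (Ws.getD k []))) (prTab Us Ws P) := by
  rw [← scl_o3s]
  rfl

lemma prTab_gp (Us Ws : List (List ℤ)) (i j : ℕ) (P : List Pd) :
    ∀ l : List (ℕ × ℕ), l ≠ [] → prTab Us Ws ((l.map fun e => (e.1, i, j, e.2)) ++ P) =
      padd3 (o3s (Us.getD i []) (Us.getD j []) (gw Ws l)) (prTab Us Ws P)
  | [], h => absurd rfl h
  | [e], _ => by
    show prTab Us Ws ((e.1, i, j, e.2) :: P) = _
    rw [prTab_cons, gw, gw, padd_nil]
  | e :: e' :: l, _ => by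
    have e1 : gw Ws (e :: e' :: l) =
      padd (scl (e.1 : ℤ) (Ws.getD e.2 [])) (gw Ws (e' :: l)) := rfl
    show prTab Us Ws ((e.1, i, j, e.2) :: (((e' :: l).map fun e => (e.1, i, j, e.2)) ++ P)) = _
    rw [prTab_cons, prTab_gp Us Ws i j P (e' :: l) (by simp), e1, o3s_padd, padd3_assoc]

/-- **the table of the products of the groups** -/
theorem prTab_flat (Us Ws : List (List ℤ)) {G : List Gp} (h : G.all (fun g => !g.2.2.isEmpty) = true) :
    prTab Us Ws (flat G) = gTab Us Ws G := by
  induction G with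
  | nil => rfl
  | cons g G ih =>
    rw [List.all_cons, Bool.and_eq_true] at h
    have hg : g.2.2 ≠ [] := by
      intro e
      rw [e] at h
      exact absurd h.1 (by simp)
    show prTab Us Ws (Gp.fl g ++ flat G) = _
    rw [Gp.fl, prTab_gp Us Ws g.1 g.2.1 (flat G) g.2.2 hg, ih h.2, gTab]

/-- **the identity from a literal table** -/
theorem chkP_of {r : ℕ} {L : List LA.Tm} {A : Arc} {G : List Gp} {T : List (List (List ℤ))}
    (h1 : (chkPr A.Us.length A.Ws.length A.P && !A.P.isEmpty) = true) (h2 : A.P = flat G)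
    (h3 : G.all (fun g => !g.2.2.isEmpty) = true)
    (h4 : scl3 (A.n : ℤ) (sumTab2 r L) = T)
    (h5 : gTab (A.Us.map Iq.v) (A.Ws.map Iq.v) G = T) : A.chkP r L = true := by
  unfold Arc.chkP
  rw [Bool.and_eq_true]
  refine ⟨h1, decide_eq_true ?_⟩
  rw [h4, h2, prTab_flat _ _ h3, h5]

end Pool.Agent.K4N.LT
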